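import Mathlib
import Pool.Agent.H99.PC.Tree

set_option autoImplicit false

open scoped MeasureTheory

namespace Pool.Agent.Results.MP_0c60fc_an.HullWithInterior

/-- The polynomially convex hull of `X ⊆ ℂⁿ`: the points `z` such that every upper bound of the
modulus of a polynomial on `X` is also an upper bound of its modulus at `z`. -/
def polyHull {n : ℕ} (X : Set (EuclideanSpace ℂ (Fin n))) : Set (EuclideanSpace ℂ (Fin n)) :=
  {z | ∀ (p : MvPolynomial (Fin n) ℂ) (M : ℝ),
    (∀ x ∈ X, ‖MvPolynomial.eval (fun i => x i) p‖ ≤ M) →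
      ‖MvPolynomial.eval (fun i => z i) p‖ ≤ M}

private lemma eval_differentiable {n : ℕ} (L : (ℂ × ℂ) →L[ℂ] EuclideanSpace ℂ (Fin n))
    (p : MvPolynomial (Fin n) ℂ) :
    Differentiable ℂ (fun x : ℂ × ℂ => MvPolynomial.eval (fun i => L x i) p) := by
  induction p using MvPolynomial.induction_on with
  | C a => simp
  | add p q hp hq => simp only [map_add]; exact hp.add hq
  | mul_X p i hp =>
    simp only [map_mul, MvPolynomial.eval_X]
    apply hp.mul
    have h : Differentiable ℂ fun x : ℂ × ℂ => L x := L.differentiable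
    exact (differentiable_euclidean.1 h) i

open Pool.Agent.H99.PC in
/-- Every point of the core of the first plate is in the hull with respect to entire functions. -/
private lemma core_hull {f : ℂ × ℂ → ℂ} (hf : Differentiable ℂ f) (y : ℂ × ℂ) (hy : y ∈ P0.core) :
    ∃ x ∈ XX, ‖f y‖ ≤ ‖f x‖ := by
  apply limSet_value _ _ (fun _ P _ => N_compact P) tree_nest (fun x => ‖f x‖)
    hf.continuous.norm
  intro m
  by_contra hcon
  push Not at hcon
  have hc := stageUnion_compact Plate.N tree m (fun P _ => N_compact P)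
  rcases (stageUnion Plate.N tree m).eq_empty_or_nonempty with hE | hE
  · have := supp_mono hf m (‖f y‖ - 1) (fun P hP x hx => by
      have h1 := (tree_LG m P hP).1.good
      have : x ∈ stageUnion Plate.N tree m := ⟨P, hP, supp_subset_N h1 hx⟩
      rw [hE] at this
      exact absurd this (Set.notMem_empty _)) _ hy
    linarith
  · obtain ⟨x0, hx0, hmax⟩ := hc.exists_isMaxOn hE (hf.continuous.norm.continuousOn)
    have h1 := supp_mono hf m (‖f x0‖) (fun P hP x hx => by
      have h1 := (tree_LG m P hP).1.good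
      exact hmax (show x ∈ stageUnion Plate.N tree m from ⟨P, hP, supp_subset_N h1 hx⟩)) _ hy
    have h2 := hcon x0 hx0
    linarith

open Pool.Agent.H99.PC in
private lemma core_nhds : P0.core ∈ nhds ((0 : ℂ), (0 : ℂ)) := by
  have h1 : IsOpen {x : ℂ × ℂ | |x.1.re| < 1 / 2 ∧ |x.1.im| < 1 / 2 ∧ ‖x.2‖ < bb 0} := by
    have c1 : Continuous fun x : ℂ × ℂ => |x.1.re| := by fun_prop
    have c2 : Continuous fun x : ℂ × ℂ => |x.1.im| := by fun_prop
    have c3 : Continuous fun x : ℂ × ℂ => ‖x.2‖ := by fun_prop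
    exact (isOpen_lt c1 continuous_const).inter ((isOpen_lt c2 continuous_const).inter
      (isOpen_lt c3 continuous_const))
  have h2 : ((0 : ℂ), (0 : ℂ)) ∈
      {x : ℂ × ℂ | |x.1.re| < 1 / 2 ∧ |x.1.im| < 1 / 2 ∧ ‖x.2‖ < bb 0} := by
    refine ⟨by simp, by simp, ?_⟩
    rw [bb_zero]
    simp
  refine Filter.mem_of_superset (h1.mem_nhds h2) ?_
  rintro x ⟨e1, e2, e3⟩
  refine ⟨?_, ?_⟩
  · show |_| ≤ (1 / 2 : ℝ) ∧ |_| ≤ (1 / 2 : ℝ)
    have h5 : (emb P0.sw x).1 - 0 = x.1 := by simp [emb, P0]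
    rw [h5]
    exact ⟨e1.le, e2.le⟩
  · show ‖_‖ ≤ bb 0
    simpa [emb, P0] using e3.le

open Pool.Agent.H99.PC in
private lemma main {n : ℕ} (L : (ℂ × ℂ) →L[ℂ] EuclideanSpace ℂ (Fin n))
    (hL : Function.Injective L) :
    IsCompact (L '' XX) ∧ IsTotallyDisconnected (L '' XX) ∧ μH[1] (L '' XX) < ⊤ ∧
      (∀ y ∈ P0.core, L y ∈ polyHull (L '' XX)) ∧ L (0, 0) ∉ L '' XX := by
  have hemb : Topology.IsClosedEmbedding L :=
    LinearMap.isClosedEmbedding_of_injective (f := (L : (ℂ × ℂ) →ₗ[ℂ] EuclideanSpace ℂ (Fin n)))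
      (LinearMap.ker_eq_bot.2 hL)
  refine ⟨XX_compact.image L.continuous, ?_, ?_, ?_, ?_⟩
  · exact hemb.isEmbedding.isTotallyDisconnected_image.2 XX_td
  · refine lt_of_le_of_lt (L.lipschitz.hausdorffMeasure_image_le (by norm_num) _) ?_
    apply ENNReal.mul_lt_top
    · simp
    · exact XX_length
  · intro y hy p M hM
    obtain ⟨x, hx, hle⟩ := core_hull (eval_differentiable L p) y hy
    exact hle.trans (hM (L x) ⟨x, hx, rfl⟩)
  · rintro ⟨x, hx, hxe⟩
    have := hL hxe
    rw [this] at hx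
    exact XX_zero hx

/-- The embedding of `ℂ × ℂ` in `ℂⁿ` by the first two coordinates. -/
private noncomputable def inc (n : ℕ) : (ℂ × ℂ) →L[ℂ] EuclideanSpace ℂ (Fin n) :=
  LinearMap.toContinuousLinearMap
    { toFun := fun x => WithLp.toLp 2 fun i : Fin n =>
        if i.val = 0 then x.1 else if i.val = 1 then x.2 else 0
      map_add' := fun x y => by
        ext i
        simp only [Prod.fst_add, Prod.snd_add, PiLp.add_apply]
        split_ifs <;> simp
      map_smul' := fun c x => by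
        ext i
        simp only [Prod.smul_fst, Prod.smul_snd, PiLp.smul_apply, RingHom.id_apply, smul_eq_mul]
        split_ifs <;> simp }

private lemma inc_apply (n : ℕ) (x : ℂ × ℂ) (i : Fin n) :
    inc n x i = if i.val = 0 then x.1 else if i.val = 1 then x.2 else 0 := rfl

private lemma inc_injective {n : ℕ} (hn : 2 ≤ n) : Function.Injective (inc n) := by
  intro x y h
  have h0 := congrArg (fun z : EuclideanSpace ℂ (Fin n) => z ⟨0, by omega⟩) h
  have h1 := congrArg (fun z : EuclideanSpace ℂ (Fin n) => z ⟨1, by omega⟩) h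
  simp only [inc_apply] at h0 h1
  simp at h0 h1
  exact Prod.ext h0 h1

/-- For every `n ≥ 2` there is a compact totally disconnected set `X ⊆ ℂⁿ` of finite length, not
containing the point `0`, whose polynomially convex hull contains all points of a ball around `0`
which lie in the plane of the first two coordinates. -/
theorem result (n : ℕ) (hn : 2 ≤ n) :
    ∃ X : Set (EuclideanSpace ℂ (Fin n)), IsCompact X ∧ IsTotallyDisconnected X ∧
      μH[1] X < ⊤ ∧ 0 ∉ X ∧
      ∃ r : ℝ, 0 < r ∧ ∀ z : EuclideanSpace ℂ (Fin n), ‖z‖ < r →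
        (∀ i : Fin n, 2 ≤ i.val → z i = 0) → z ∈ polyHull X := by
  obtain ⟨h1, h2, h3, h4, h5⟩ := main (inc n) (inc_injective hn)
  have h0 : inc n (0, 0) = 0 := map_zero (inc n)
  refine ⟨_, h1, h2, h3, fun h => h5 (h0 ▸ h), ?_⟩
  obtain ⟨r, hr, hball⟩ := Metric.mem_nhds_iff.1 core_nhds
  refine ⟨r, hr, fun z hz hz2 => ?_⟩
  have e : inc n (z ⟨0, by omega⟩, z ⟨1, by omega⟩) = z := by
    ext i
    rw [inc_apply]
    split_ifs with g0 g1
    · exact congrArg (fun j => z j) (Fin.ext g0.symm)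
    · exact congrArg (fun j => z j) (Fin.ext g1.symm)
    · exact (hz2 i (by omega)).symm
  rw [← e]
  refine h4 _ (hball ?_)
  rw [Metric.mem_ball, dist_eq_norm, Prod.norm_def]
  have n0 : ‖z ⟨0, by omega⟩‖ ≤ ‖z‖ := PiLp.norm_apply_le z _
  have n1 : ‖z ⟨1, by omega⟩‖ ≤ ‖z‖ := PiLp.norm_apply_le z _
  refine max_lt ?_ ?_
  · simpa using lt_of_le_of_lt n0 hz
  · simpa using lt_of_le_of_lt n1 hz

end Pool.Agent.Results.MP_0c60fc_an.HullWithInterior
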